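import Mathlib

set_option autoImplicit false

namespace Pool.Agent.Results.MP_3e89d2_lc.Counter

open Finset Equiv

abbrev Ω (n : ℕ) := Fin n → Bool

section
variable {n : ℕ}

def IsDist (P : Ω n → ℝ) : Prop := (∀ x, 0 ≤ P x) ∧ ∑ x, P x = 1

/-- Earth mover's distance under the relative Hamming distance. -/
noncomputable def emd (P Q : Ω n → ℝ) : ℝ :=
  sInf {c | ∃ w : Ω n → Ω n → ℝ, (∀ x y, 0 ≤ w x y) ∧ (∀ x, ∑ y, w x y = P x) ∧
    (∀ y, ∑ x, w x y = Q y) ∧ c = ∑ x, ∑ y, w x y * (hammingDist x y / n)}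

/-- The distribution of `f` applied to a sample of `Y`. -/
def push (f : Ω n → Ω n) (Y : Ω n → ℝ) (z : Ω n) : ℝ := ∑ x with f x = z, Y x

def Closed (D : Set (Ω n → ℝ)) : Prop := ∀ Y ∈ D, IsDist Y ∧ ∀ f, push f Y ∈ D

def Far (X : Ω n → ℝ) (D : Set (Ω n → ℝ)) (ε : ℝ) : Prop := ∀ Y ∈ D, ε ≤ emd X Y

def sg (b : Bool) : ℝ := if b then 1 else -1

def s (x : Ω n) : ℝ := ∑ i, sg (x i)

def fl (i : Fin n) : Perm (Ω n) :=
  Function.Involutive.toPerm (fun x => Function.update x i (!x i)) fun x => by simp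

theorem fl_apply (i j : Fin n) (x : Ω n) : fl i x j = if j = i then !x j else x j := by
  by_cases h : j = i <;> simp [fl, h]

theorem odd (i : Fin n) (f : Ω n → ℝ) (h : ∀ x, f (fl i x) = -f x) : ∑ x, f x = 0 := by
  have := Equiv.sum_comp (fl i) f
  simp only [h, sum_neg_distrib] at this
  linarith

theorem sg_not (b : Bool) : sg (!b) = -sg b := by cases b <;> simp [sg]

theorem s0 : ∑ x : Ω n, s x = 0 := by
  rw [show ∑ x : Ω n, s x = ∑ i, ∑ x : Ω n, sg (x i) from sum_comm]
  exact sum_eq_zero fun i _ => odd i _ fun x => by simp [fl_apply, sg_not]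

theorem s2 : ∑ x : Ω n, s x * s x = 2 ^ n * n := by
  simp only [s, sum_mul_sum]
  rw [sum_comm, sum_congr rfl (g := fun _ => (2 : ℝ) ^ n) fun i _ => ?_]
  · simp [mul_comm]
  rw [sum_comm, sum_eq_single i (fun j _ h => odd i _ fun x => by simp [fl_apply, sg_not, h])
    (by simp), sum_congr rfl (g := fun _ => 1) fun x _ => by cases x i <;> simp [sg]]
  simp

theorem sabs (x : Ω n) : |s x| ≤ n :=
  (abs_sum_le_sum_abs _ _).trans (by simp [show ∀ b, |sg b| = 1 by simp [sg]])

theorem lip (x y : Ω n) : s x - s y ≤ 2 * hammingDist x y := by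
  rw [s, s, ← sum_sub_distrib, hammingDist, card_filter]
  push_cast
  rw [mul_sum]
  refine sum_le_sum fun i _ => ?_
  cases x i <;> cases y i <;> norm_num [sg]

theorem cross (α : Ω n → ℝ) (h : ∀ a, 0 ≤ α a) :
    ∑ σ : Perm (Ω n), (∑ a, α a * s (σ a)) ^ 2 ≤ (∑ a, α a ^ 2) * (Fintype.card (Perm (Ω n)) * n) := by
  let c (a b : Ω n) := ∑ σ : Perm (Ω n), s (σ a) * s (σ b)
  have h1 a b : c a a = c b b :=
    Fintype.sum_equiv (.mulRight (swap a b)) _ _ fun σ => by simp
  have h2 a : c a a = Fintype.card (Perm (Ω n)) * n := by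
    have : ∑ b, c b b = Fintype.card (Perm (Ω n)) * (2 ^ n * n) := by
      rw [sum_comm, sum_congr rfl fun σ _ => (Equiv.sum_comp σ fun x => s x * s x).trans s2]
      simp
    rw [sum_congr rfl fun b _ => h1 b a] at this
    simp only [sum_const, card_univ, Fintype.card_pi, Fintype.card_bool, prod_const,
      Fintype.card_fin, nsmul_eq_mul, Nat.cast_pow, Nat.cast_ofNat] at this
    exact mul_left_cancel₀ (show (2 : ℝ) ^ n ≠ 0 by positivity) (by linarith)
  have h3 a b (l : a ≠ b) : c a b ≤ 0 := by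
    have h4 : ∑ b, c a b = 0 := by
      rw [sum_comm]
      exact sum_eq_zero fun σ _ => by rw [← mul_sum, Equiv.sum_comp σ s, s0, mul_zero]
    rw [← add_sum_erase _ _ (mem_univ a), sum_congr rfl (g := fun _ => c a b) fun d hd =>
      Fintype.sum_equiv (.mulRight (swap b d)) _ _ fun σ => by
        simp [swap_apply_of_ne_of_ne l (ne_of_mem_erase hd).symm], sum_const, nsmul_eq_mul] at h4
    have : (0 : ℝ) < #(univ.erase a) := by exact_mod_cast card_pos.2 ⟨b, by simp [l.symm]⟩
    have : 0 ≤ c a a := by rw [h2]; positivity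
    by_contra! l
    nlinarith
  calc _ = ∑ a, ∑ b, α a * α b * c a b := by
        simp only [sq, sum_mul_sum]
        simp only [c, mul_sum]
        rw [sum_comm]
        refine sum_congr rfl fun a _ => ?_
        rw [sum_comm]
        exact sum_congr rfl fun b _ => sum_congr rfl fun σ _ => by ring
    _ ≤ _ := by
        rw [sum_mul]
        refine sum_le_sum fun a _ => ?_
        rw [← add_sum_erase _ _ (mem_univ a), h2, sq]
        exact add_le_of_nonpos_right (sum_nonpos fun b hb => mul_nonpos_of_nonneg_of_nonpos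
          (mul_nonneg (h a) (h b)) (h3 a b (ne_of_mem_erase hb).symm))

/-- Averaging kernel over the first `i` coordinates. -/
noncomputable def A (i : ℕ) (x a : Ω n) : ℝ :=
  ∏ j : Fin n, if j < i then 1 / 2 else if x j = a j then 1 else 0

theorem A0 (i : ℕ) (x a : Ω n) : 0 ≤ A i x a := prod_nonneg fun j _ => by positivity

theorem Asum (i : ℕ) (x : Ω n) : ∑ a, A i x a = 1 := by
  simp only [A]
  rw [← Fintype.piFinset_univ, ← prod_univ_sum (fun _ => univ)
    fun (j : Fin n) b => if j < i then (1 / 2 : ℝ) else if x j = b then 1 else 0]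
  exact prod_eq_one fun j _ => by split_ifs <;> simp

theorem Asq (i : Fin n) (x : Ω n) : ∑ a, A i x a ^ 2 = (1 / 2) ^ (i : ℕ) := by
  simp only [A, ← prod_pow]
  rw [← Fintype.piFinset_univ, ← prod_univ_sum (fun _ => univ)
    fun (j : Fin n) b => (if (j : ℕ) < i then (1 / 2 : ℝ) else if x j = b then 1 else 0) ^ 2,
    prod_congr rfl (g := fun j => if j ∈ Iio i then 1 / 2 else 1) fun j _ => by
      by_cases h : j < i <;> simp [h]; norm_num, prod_ite_mem]
  simp

theorem Asucc (i : Fin n) (x a : Ω n) : A (i + 1) x a = (A i x a + A i (fl i x) a) / 2 := by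
  simp only [A, ← mul_prod_erase _ _ (mem_univ i)]
  have (y : Ω n) (h : ∀ j ≠ i, y j = x j) : ∏ j ∈ univ.erase i,
      (if (j : ℕ) < i then (1 / 2 : ℝ) else if y j = a j then 1 else 0) = ∏ j ∈ univ.erase i,
      (if (j : ℕ) < i + 1 then (1 / 2 : ℝ) else if x j = a j then 1 else 0) :=
    prod_congr rfl fun j hj => by
      have := ne_of_mem_erase hj
      simp [h j this, this.le_iff_lt]
  rw [this x fun _ _ => rfl, this (fl i x) fun j h => by simp [fl_apply, h], fl_apply]
  cases x i <;> cases a i <;> simp <;> ring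

noncomputable def g (σ : Perm (Ω n)) (i : ℕ) (x : Ω n) : ℝ := ∑ a, A i x a * s (σ a)

theorem gabs (σ : Perm (Ω n)) (i : ℕ) (x : Ω n) : |g σ i x| ≤ n := by
  refine (abs_sum_le_sum_abs _ _).trans ((sum_le_sum (g := fun a => A i x a * n) fun a _ => ?_).trans
    (by rw [← sum_mul, Asum, one_mul]))
  rw [abs_mul, abs_of_nonneg (A0 ..)]
  exact mul_le_mul_of_nonneg_left (sabs _) (A0 ..)

theorem tele (σ : Perm (Ω n)) (x : Ω n) :
    ∑ i : Fin n, (g σ i x - g σ i (fl i x)) / 2 = s (σ x) := by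
  rw [sum_congr rfl (g := fun i : Fin n => g σ i x - g σ (i + 1) x) fun i _ => by
    simp only [g, Asucc, add_div, add_mul, sum_add_distrib, div_mul_eq_mul_div, ← sum_div]; ring,
    Fin.sum_univ_eq_sum_range (fun i => g σ i x - g σ (i + 1) x), sum_range_sub']
  have h1 : g σ n x = 0 := by simp [g, A, ← mul_sum, Equiv.sum_comp σ s, s0]
  have h2 (a : Ω n) : A 0 x a = if x = a then 1 else 0 := by simp [A, prod_ite_zero, funext_iff]
  rw [h1]
  simp [g, h2]

theorem upper (hn : 0 < n) (σ : Perm (Ω n)) {κ : ℝ} (h0 : 0 ≤ κ) (h1 : κ * (n + n * n) ≤ 1 / 2 ^ n) :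
    emd (fun x => 1 / 2 ^ n + κ * s (σ x)) (fun _ => 1 / 2 ^ n) ≤
      κ / n * ∑ i : Fin n, ∑ x, |g σ i x| := by
  let φ (i : Fin n) (x : Ω n) := max (κ * ((g σ i x - g σ i (fl i x)) / 2)) 0
  have h2 i x : φ i x ≤ κ * ((|g σ i x| + |g σ i (fl i x)|) / 2) := max_le
    (mul_le_mul_of_nonneg_left (by linarith [le_abs_self (g σ i x), neg_abs_le (g σ i (fl i x))]) h0)
    (by positivity)
  refine le_trans (csInf_le ⟨0, ?_⟩ (Set.mem_setOf.2 ⟨fun x y => (if y = x then 1 / 2 ^ n + κ * s (σ x) - ∑ i, φ i x else 0) +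
    ∑ i, if y = fl i x then φ i x else 0, fun x y => add_nonneg ?_
      (sum_nonneg fun i _ => by positivity), fun x => ?_, fun y => ?_, rfl⟩)) ?_
  · rintro _ ⟨w, h, -, -, rfl⟩
    exact sum_nonneg fun x _ => sum_nonneg fun y _ => mul_nonneg (h x y) (by positivity)
  · split_ifs
    · have := sum_le_card_nsmul univ (φ · x) (κ * n) fun i _ => (h2 i x).trans
        (mul_le_mul_of_nonneg_left (by linarith [gabs σ i x, gabs σ i (fl i x)]) h0)
      have h3 := mul_le_mul_of_nonneg_left (neg_le_of_abs_le (sabs (σ x))) h0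
      simp only [card_univ, Fintype.card_fin, nsmul_eq_mul] at this
      linarith
    · rfl
  · rw [sum_add_distrib, sum_comm]
    simp
  · rw [sum_add_distrib, sum_comm]
    have (i : Fin n) : (∑ x, if y = fl i x then φ i x else 0) = φ i y -
        κ * ((g σ i y - g σ i (fl i y)) / 2) := by
      rw [← Equiv.sum_comp (fl i)]
      have : ∀ x, fl i (fl i x) = x := (fl i).left_inv
      simp only [this, sum_ite_eq, mem_univ, if_true, φ]
      rcases le_total (κ * ((g σ i y - g σ i (fl i y)) / 2)) 0 with l | l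
      · rw [max_eq_right l, max_eq_left (by linarith)]; ring
      · rw [max_eq_left l, max_eq_right (by linarith)]; ring
    simp only [this, sum_sub_distrib, ← mul_sum, tele]
    simp
  · have h3 (i : Fin n) (x : Ω n) : hammingDist x (fl i x) = 1 := by
      rw [hammingDist, card_eq_one]
      exact ⟨i, by ext j; by_cases h : j = i <;> simp [fl_apply, h]⟩
    simp only [add_mul, sum_add_distrib, ite_mul, zero_mul, sum_ite_eq', mem_univ, if_true,
      hammingDist_self, Nat.cast_zero, zero_div, mul_zero, zero_add, sum_mul]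
    rw [sum_congr rfl fun x _ => sum_comm, sum_comm, mul_sum]
    refine sum_le_sum fun i _ => ?_
    simp only [sum_ite_eq', mem_univ, if_true, h3, Nat.cast_one]
    refine (sum_le_sum fun x _ => mul_le_mul_of_nonneg_right (h2 i x) (by positivity)).trans_eq ?_
    simp only [← sum_mul, ← mul_sum, ← sum_div, sum_add_distrib,
      Equiv.sum_comp (fl i) fun x => |g σ i x|]
    ring

theorem mean {m : ℝ} (hm : 0 < m) : ∑ σ : Perm (Ω n), ∑ i : Fin n, ∑ x, |g σ i x| ≤
    Fintype.card (Perm (Ω n)) * 2 ^ n * (2 * n / m + 3 / 2 * m) := by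
  have h1 (i : Fin n) (x : Ω n) : ∑ σ : Perm (Ω n), |g σ i x| ≤ Fintype.card (Perm (Ω n)) *
      (n / m / 2 * (3 / 4) ^ (i : ℕ) + m / 2 * (2 / 3) ^ (i : ℕ)) := by
    have h2 := cross _ (A0 i x)
    rw [Asq] at h2
    have t0 : 0 < (3 / 2 : ℝ) ^ (i : ℕ) / m := by positivity
    refine (sum_le_sum (g := fun σ => (3 / 2) ^ (i : ℕ) / m / 2 * g σ i x ^ 2 +
      m / 2 * (2 / 3) ^ (i : ℕ)) fun σ _ => ?_).trans ?_
    · have e : m * (2 / 3) ^ (i : ℕ) = ((3 / 2 : ℝ) ^ (i : ℕ) / m)⁻¹ := by
        rw [inv_div, div_eq_mul_inv m, ← inv_pow]; norm_num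
      generalize (3 / 2 : ℝ) ^ (i : ℕ) / m = t at *
      rw [← sq_abs, div_mul_eq_mul_div m, e]
      have := mul_nonneg (inv_pos.2 t0).le (sq_nonneg (t * |g σ i x| - 1))
      have e2 : t⁻¹ * (t * |g σ i x| - 1) ^ 2 = t * |g σ i x| ^ 2 - 2 * |g σ i x| + t⁻¹ := by
        field_simp
        ring
      linarith
    · rw [sum_add_distrib, ← mul_sum, sum_const, card_univ, nsmul_eq_mul, mul_add]
      refine add_le_add_left ((mul_le_mul_of_nonneg_left h2 (by positivity)).trans_eq ?_) _
      rw [show (3 / 4 : ℝ) = 3 / 2 * (1 / 2) by norm_num, mul_pow]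
      ring
  have h3 (r : ℝ) (h0 : 0 ≤ r) (h : r < 1) : ∑ i : Fin n, r ^ (i : ℕ) ≤ (1 - r)⁻¹ := by
    rw [Fin.sum_univ_eq_sum_range, ← tsum_geometric_of_lt_one h0 h]
    exact (summable_geometric_of_lt_one h0 h).sum_le_tsum _ fun _ _ => by positivity
  rw [sum_comm]
  refine (sum_le_sum fun i _ => sum_comm.trans_le (sum_le_sum fun x _ => h1 i x)).trans ?_
  simp only [sum_const, card_univ, Fintype.card_pi, Fintype.card_bool, prod_const,
    Fintype.card_fin, nsmul_eq_mul, Nat.cast_pow, Nat.cast_ofNat, ← mul_sum, sum_add_distrib]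
  rw [← mul_assoc, mul_comm (2 ^ n)]
  refine mul_le_mul_of_nonneg_left (add_le_add
    ((mul_le_mul_of_nonneg_left (h3 _ (by norm_num) (by norm_num)) (by positivity)).trans_eq ?_)
    ((mul_le_mul_of_nonneg_left (h3 _ (by norm_num) (by norm_num)) (by positivity)).trans_eq ?_))
    (by positivity) <;> ring

theorem push_perm (π : Perm (Ω n)) (X : Ω n → ℝ) (z : Ω n) : push π X z = X (π.symm z) := by
  simp [push, ← eq_symm_apply, sum_filter]

end

theorem result (c : ℝ) (hc : 0 < c) : ∃ N : ℕ, ∀ n ≥ N, ∃ (D : Set (Ω n → ℝ)) (X : Ω n → ℝ) (ε : ℝ),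
    Closed D ∧ IsDist X ∧ 0 < ε ∧ Far X D ε ∧
      2 * {π : Perm (Ω n) | Far (push π X) D (c * ε)}.ncard ≤ Nat.card (Perm (Ω n)) := by
  refine ⟨⌈192 / c ^ 2⌉₊ + 1, fun n hn => ?_⟩
  have n0 : (1 : ℝ) ≤ n := by exact_mod_cast (by omega : 1 ≤ n)
  have n1 : 192 / c ^ 2 ≤ n := (Nat.le_ceil _).trans (by exact_mod_cast (by omega))
  have n2 : (n : ℝ) + 1 ≤ 2 ^ n := by exact_mod_cast n.lt_two_pow_self
  let κ : ℝ := 1 / (n * 2 ^ n * 2 ^ n)
  have k0 : 0 < κ := by positivity
  have k1 : κ * (n + n * n) ≤ 1 / 2 ^ n := by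
    rw [show κ * (n + n * n) = (n + 1) / 2 ^ n * (1 / 2 ^ n) by simp only [κ]; field_simp; ring]
    exact mul_le_of_le_one_left (by positivity) (div_le_one_of_le₀ n2 (by positivity))
  let U : Ω n → ℝ := fun _ => 1 / 2 ^ n
  have hD (f : Ω n → Ω n) : IsDist (push f U) :=
    ⟨fun _ => sum_nonneg fun _ _ => by positivity, (sum_fiberwise ..).trans (by simp [U])⟩
  have hX (x : Ω n) : 1 / 2 ^ n / 2 ≤ 1 / 2 ^ n + κ * s x := by
    have := mul_le_mul_of_nonneg_left (neg_le_of_abs_le (sabs x)) k0.le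
    nlinarith [mul_nonneg (mul_nonneg k0.le (zero_le_one.trans n0)) (sub_nonneg.2 n0)]
  have hX' : IsDist fun x : Ω n => 1 / 2 ^ n + κ * s x :=
    ⟨fun x => le_trans (by positivity) (hX x), by simp [sum_add_distrib, ← mul_sum, s0]⟩
  refine ⟨Set.range (push · U), _, κ * 2 ^ n / 2, ?_, hX', by positivity, ?_, ?_⟩
  · rintro _ ⟨f, rfl⟩
    refine ⟨hD f, fun h => ⟨h ∘ f, funext fun z => ?_⟩⟩
    simp only [push, sum_filter]
    rw [eq_comm, sum_congr rfl (g := fun y => ∑ x, if f x = y then if h y = z then U x else 0 else 0)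
      fun y _ => by split_ifs <;> simp, sum_comm]
    simp
  · rintro _ ⟨f, rfl⟩
    refine le_csInf ⟨_, fun x y => (1 / 2 ^ n + κ * s x) * push f U y, fun x y =>
      mul_nonneg (hX'.1 x) ((hD f).1 y), fun x => by rw [← mul_sum, (hD f).2, mul_one],
      fun y => by rw [← sum_mul, hX'.2, one_mul], rfl⟩ ?_
    rintro _ ⟨w, h1, h2, h3, rfl⟩
    by_cases hf : f.Surjective
    · have e (y : Ω n) : push f U y = 1 / 2 ^ n :=
        push_perm (.ofBijective f (Finite.surjective_iff_bijective.1 hf)) U y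
      refine le_trans (le_of_eq ?_) (sum_le_sum fun x _ => sum_le_sum
        (f := fun y => w x y * ((s x - s y) / 2 / n)) fun y _ => mul_le_mul_of_nonneg_left
          (div_le_div_of_nonneg_right (by linarith [lip x y]) (by positivity)) (h1 x y))
      simp only [sub_div, mul_sub, sum_sub_distrib]
      rw [sum_comm (f := fun x y => w x y * (s y / 2 / n))]
      simp only [← sum_mul, h2, h3, e, add_mul, sum_add_distrib, ← mul_div_assoc, ← sum_div,
        mul_assoc, ← mul_sum, s0, s2]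
      field_simp
      ring
    · obtain ⟨z, hz⟩ := not_forall.1 hf
      have e : w z z = 0 := (sum_eq_zero_iff_of_nonneg fun x _ => h1 x z).1 ((h3 z).trans
        (sum_eq_zero fun x hx => (hz ⟨x, (mem_filter.1 hx).2⟩).elim)) z (mem_univ _)
      refine le_trans ?_ (single_le_sum (fun x _ => sum_nonneg fun y _ =>
        mul_nonneg (h1 x y) (by positivity)) (mem_univ z))
      refine le_trans ?_ (sum_le_sum (f := fun y => w z y * (1 / n)) fun y _ => ?_)
      · rw [← sum_mul, h2]
        refine le_trans (le_of_eq ?_) (mul_le_mul_of_nonneg_right (hX z) (by positivity))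
        simp only [κ]
        field_simp
      · by_cases l : z = y
        · simp [← l, e]
        · exact mul_le_mul_of_nonneg_left (div_le_div_of_nonneg_right
            (by exact_mod_cast hammingDist_pos.2 l) (by positivity)) (h1 z y)
  · classical
    rw [Set.ncard_eq_toFinset_card', Nat.card_eq_fintype_card]
    have h1 := mean (n := n) (m := 16 / c) (by positivity)
    rw [← Equiv.sum_comp (Equiv.inv _)] at h1
    have h2 := (card_nsmul_le_sum _ _ (c * n * 2 ^ n / 2) fun π hπ => ?_).trans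
      ((sum_le_sum_of_subset_of_nonneg (subset_univ {π : Perm (Ω n) | Far (push π fun x =>
        1 / 2 ^ n + κ * s x) (Set.range (push · U)) (c * (κ * 2 ^ n / 2))}.toFinset)
          fun _ _ _ => by positivity).trans h1)
    · rw [nsmul_eq_mul] at h2
      have h3 : 2 * n / (16 / c) + 3 / 2 * (16 / c) ≤ c * n / 4 := by
        rw [div_le_iff₀ (by positivity)] at n1
        field_simp
        nlinarith
      have h4 := h2.trans (mul_le_mul_of_nonneg_left h3 (by positivity))
      rw [← Nat.cast_le (α := ℝ)]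
      push_cast
      refine le_of_mul_le_mul_right (a := c * n * 2 ^ n / 4) (by linarith) (by positivity)
    · have h3 := Set.mem_toFinset.1 hπ U ⟨id, funext fun z => push_perm 1 U z⟩
      rw [funext (push_perm π _)] at h3
      have h4 := h3.trans (upper (by omega) π.symm k0.le k1)
      rw [div_mul_eq_mul_div κ, le_div_iff₀ (by positivity)] at h4
      exact le_of_mul_le_mul_left (a := κ) (le_of_eq_of_le (by ring) h4) k0

end Pool.Agent.Results.MP_3e89d2_lc.Counter
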